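import Mathlib
import Pool.Prelude.Def_F_e853f830
import Pool.Agent.W_8ef934_h95.Unif

/-!
MP_8ef934_nt: the difference 24 is the only extremal one among all differences `q` with at most
`c √N` prime factors, `c < √(8/3)`, in particular among all `q ≤ exp (c' √N log N)`, `c' < √(2/3)`, for
all large `N`.
-/

set_option autoImplicit false
open Necdea073
open Pool.Agent.W8ef934h95

namespace Pool.Agent.Results.MP_8ef934_nt.FewPrimeFactors

/-- A difference `q ≠ 24` of an extremal pair `(q, a)` (or only of a pair which is at least as good as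
`(24, 1)`) has, for all large `N`, more than `c √N` prime factors, is bigger than
`exp (c' √N log N)`, and all prime powers which divide `q` exactly are smaller than `N ^ K` or than
`q ^ (1 / (c √N))`. -/
theorem result (c c' η : ℝ) (hc : c < Real.sqrt (8 / 3)) (hc' : c' < Real.sqrt (2 / 3))
    (hη : 0 < η) :
    ∃ (K : ℝ) (N₀ : ℕ), ∀ N ≥ N₀, ∀ q a : ℕ, IsNontrivial q a → q ≠ 24 →
      (Q N q a = Qmax N ∨ Q N 24 1 ≤ Q N q a) →
      -- the number of prime factors
      c * Real.sqrt N < (q.primeFactors.card : ℝ) ∧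
      (Q N q a : ℝ) ≤ (1 + η) * (q.primeFactors.card : ℝ) ∧
      -- the size
      c' * Real.sqrt N * Real.log N < Real.log q ∧
      -- the effective number of prime powers
      c * Real.sqrt N * ∑ p ∈ q.primeFactors, Real.log ((p : ℝ) ^ (q.factorization p)) ^ 2 <
        Real.log q ^ 2 ∧
      -- the prime powers
      ∀ p ∈ q.primeFactors, Real.log ((p : ℝ) ^ (q.factorization p)) < K * Real.log N ∨
        c * Real.sqrt N * Real.log ((p : ℝ) ^ (q.factorization p)) < Real.log q := by
  obtain ⟨N₁, h1⟩ := main_card c hc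
  obtain ⟨N₂, h2⟩ := main_size c' hc'
  obtain ⟨N₃, h3⟩ := main_eff c hc
  obtain ⟨K, N₄, h4⟩ := main_pp c hc
  obtain ⟨N₅, h5⟩ := main_unif η hη
  refine ⟨K, N₁ + N₂ + N₃ + N₄ + N₅, fun N hN q a hn h24 hmax => ?_⟩
  have hle : Q N 24 1 ≤ Q N q a := by
    rcases hmax with h | h
    · rw [h]
      exact le_Qmax nontriv_24
    · exact h
  have hnot : ¬ Q N q a < Q N 24 1 := not_lt.2 hle
  refine ⟨?_, ?_, ?_, ?_, ?_⟩
  · by_contra h
    exact hnot (h1 N (by omega) q a hn h24 (not_lt.1 h))
  · rcases h5 N (by omega) q a hn h24 with h | h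
    · exact absurd h hnot
    · exact h
  · by_contra h
    exact hnot (h2 N (by omega) q a hn h24 (not_lt.1 h))
  · by_contra h
    exact hnot (h3 N (by omega) q a hn h24 (not_lt.1 h))
  · intro p hp
    by_contra h
    push Not at h
    exact hnot (h4 N (by omega) q a hn ⟨p, hp, h.1, h.2⟩)

end Pool.Agent.Results.MP_8ef934_nt.FewPrimeFactors
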