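import Mathlib
import Pool.Prelude.Def_F_e853f830
import Pool.Agent.W_8ef934_h4.Fin

/-!
MP_8ef934_nt: the question reduces to subprogressions of `24 n + 1`, i.e. to generalized pentagonal
numbers in arithmetic progressions, and for infinitely many pentagonal lengths every extremal
progression is a subprogression of `24 n + 1`.
-/

set_option autoImplicit false
open Necdea073

namespace Pool.Agent.Results.MP_8ef934_nt.MultiplesOf24

/-- generalized pentagonal numbers -/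
def IsGP (m : ℕ) : Prop := ∃ k : ℤ, (m : ℤ) = k * (3 * k - 1) / 2

/-- the lengths of the question -/
def Len (N : ℕ) : Prop := 8 ≤ N ∧ ∃ k : ℤ, (N : ℤ) = k * (3 * k - 1) / 2 + 1

/-- the assertion of the question for one length -/
def Unique24 (N : ℕ) : Prop := ∀ q a : ℕ, IsNontrivial q a → Q N q a = Qmax N → q = 24

theorem result :
    -- every extremal pair of a least counterexample beyond 52 is a subprogression of `24 n + 1`
    (∀ N : ℕ, Len N → 52 < N → (∀ M : ℕ, Len M → M < N → Unique24 M) →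
      ∀ q a : ℕ, IsNontrivial q a → Q N 24 1 ≤ Q N q a → 24 ∣ q ∧ a % 24 = 1) ∧
    -- the question is a question on generalized pentagonal numbers in progressions
    ((∀ N : ℕ, Len N → Unique24 N) ↔
      (∀ N : ℕ, Len N → N ≤ 52 → Unique24 N) ∧
      ∀ N : ℕ, Len N → 52 < N → ∀ r s : ℕ, 2 ≤ r → Nat.Coprime r (24 * s + 1) →
        {n : ℕ | n < N ∧ IsGP (r * n + s)}.ncard < {n : ℕ | n < N ∧ IsGP n}.ncard) ∧
    -- unconditional: infinitely many lengths
    (∀ X : ℕ, ∃ N : ℕ, X < N ∧ Len N ∧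
      ∀ q a : ℕ, IsNontrivial q a → Q N q a = Qmax N → 24 ∣ q ∧ a % 24 = 1) ∧
    ∀ c : ℝ, 1 / 3 + 1 / Real.sqrt 3 < c → ∀ X : ℕ, ∃ N : ℕ, X < N ∧ Len N ∧
      ∀ q a : ℕ, IsNontrivial q a → ¬ 24 ∣ q → (Q N q a : ℝ) ≤ c * Qmax N := by
  refine ⟨?_, ?_, ?_, ?_⟩
  · intro N hN h52 h q a hn hge
    exact Pool.Agent.W8ef934h4.part1 N hN.2 h52 (fun M h8 hM hMN => h M ⟨h8, hM⟩ hMN) q a hn hge
  · have hc : ∀ N r s : ℕ, {n : ℕ | n < N ∧ IsGP (r * n + s)}.ncard =
        Q N (24 * r) (24 * s + 1) := Pool.Agent.W8ef934h4.count_gp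
    have hc1 : ∀ N : ℕ, {n : ℕ | n < N ∧ IsGP n}.ncard = Q N 24 1 := by
      intro N
      have h := hc N 1 0
      simpa using h
    have h3 := Pool.Agent.W8ef934h4.part3
    constructor
    · intro h
      obtain ⟨h1, h2⟩ := h3.1 (fun N h8 hN => h N ⟨h8, hN⟩)
      refine ⟨fun N hN h52 => h1 N hN.1 hN.2 h52, fun N hN h52 r s hr hrs => ?_⟩
      rw [hc, hc1]
      exact h2 N hN.2 h52 r s hr hrs
    · rintro ⟨h1, h2⟩ N hN
      refine h3.2 ⟨fun N h8 hN h52 => h1 N ⟨h8, hN⟩ h52, fun N hN h52 r s hr hrs => ?_⟩ N hN.1 hN.2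
      rw [← hc, ← hc1]
      exact h2 N ⟨by omega, hN⟩ h52 r s hr hrs
  · intro X
    obtain ⟨N, h1, h2, h3, h4⟩ := Pool.Agent.W8ef934h4.part2' X
    exact ⟨N, h1, ⟨h2, h3⟩, h4⟩
  · intro c hc X
    obtain ⟨N, h1, h2, h3, h4⟩ := Pool.Agent.W8ef934h4.part2 c hc X
    exact ⟨N, h1, ⟨h2, h3⟩, h4⟩

end Pool.Agent.Results.MP_8ef934_nt.MultiplesOf24
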