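import Mathlib
import Pool.Prelude.Def_F_e853f830
import Pool.Agent.W_8ef934_h40.Cor

/-!
MP_8ef934_nt: an inequality between the number of squares and the sizes of the prime powers of the modulus;
moduli which are not smooth on average contain very few squares.
-/

set_option autoImplicit false
open Necdea073
open Pool.Agent.W8ef934h95 Pool.Agent.W8ef934h40

namespace Pool.Agent.Results.MP_8ef934_nt.NonSmoothModuli

/-- Let `P = p ^ (v_p q)` run over the prime powers which divide `q` exactly.  For all `K ≤ Q = Q (N; q, a)` we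
have `∑ (log P)² ≤ 10 ^ 5 log q (log q / binom (Q, K) + K log N)`; in particular
`Q (N; q, a) ≤ C N ^ ε (1 + log log q)` if `∑ (log P)² ≥ C log q (log N + log log q)`. -/
theorem result :
    (∀ N q a K : ℕ, 2 ≤ N → 1 ≤ q → 1 ≤ a → Nat.Coprime q a → K ≤ Q N q a →
      ∑ p ∈ q.primeFactors, Real.log ((p : ℝ) ^ (q.factorization p)) ^ 2 ≤
        10 ^ 5 * Real.log q * (Real.log q / ((Q N q a).choose K : ℕ) + K * Real.log N)) ∧
    (∀ ε : ℝ, 0 < ε → ∃ C : ℝ, 0 < C ∧ ∀ N q a : ℕ, 2 ≤ N → 3 ≤ q → 1 ≤ a → Nat.Coprime q a →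
      C * Real.log q * (Real.log N + Real.log (Real.log q)) ≤
        ∑ p ∈ q.primeFactors, Real.log ((p : ℝ) ^ (q.factorization p)) ^ 2 →
      (Q N q a : ℝ) ≤ C * (N : ℝ) ^ ε * (1 + Real.log (Real.log q))) :=
  ⟨fun _ _ _ _ hN hq ha hqa hK => main hN hq ha hqa hK, fun ε hε => few ε hε⟩

end Pool.Agent.Results.MP_8ef934_nt.NonSmoothModuli
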