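import Mathlib
import Pool.Prelude.Def_F_e853f830
import Pool.Agent.W_8ef934_h40.Cor

/-!
MP_8ef934_nt: for all large `N`, every extremal difference other than `24` is smooth on average and has, up
to a constant factor, as many prime factors as its size permits.
-/

set_option autoImplicit false
open Necdea073
open Pool.Agent.W8ef934h95 Pool.Agent.W8ef934h40

namespace Pool.Agent.Results.MP_8ef934_nt.SmoothOnAverage

/-- Let `(q, a)` be an extremal pair (or only a pair which is at least as good as `(24, 1)`), `q ≠ 24`, and let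
`P = p ^ (v_p q)` run over the prime powers which divide `q` exactly.  Then, for all large `N`,
`∑ (log P)² ≤ C log q (log log q + log q exp (- N ^ δ))`, and the number of prime factors of `q` is at least
`c min (log q / log log q) (exp (N ^ δ))`, for every `δ < 1 / 2`. -/
theorem result (δ : ℝ) (hδ0 : 0 < δ) (hδ : δ < 1 / 2) : ∃ c : ℝ, 0 < c ∧ ∃ N₀ : ℕ, ∀ N ≥ N₀,
    ∀ q a : ℕ, IsNontrivial q a → q ≠ 24 → (Q N q a = Qmax N ∨ Q N 24 1 ≤ Q N q a) →
    c * ∑ p ∈ q.primeFactors, Real.log ((p : ℝ) ^ (q.factorization p)) ^ 2 ≤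
      Real.log q * (Real.log (Real.log q) + Real.log q * Real.exp (-(N : ℝ) ^ δ)) ∧
    c * min (Real.log q / Real.log (Real.log q)) (Real.exp ((N : ℝ) ^ δ)) ≤
      (q.primeFactors.card : ℝ) := by
  obtain ⟨c, hc, N₀, h⟩ := extremal δ hδ0 hδ
  refine ⟨c, hc, N₀, fun N hN q a hn h24 hmax => h N hN q a hn h24 ?_⟩
  rcases hmax with h1 | h1
  · rw [h1]
    exact le_Qmax nontriv_24
  · exact h1

end Pool.Agent.Results.MP_8ef934_nt.SmoothOnAverage
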